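import Pool.Agent.TH536.EW.Win
import Pool.Agent.H771R3.EN.ARC

/-!
# Few exceptional exponents up to `N`
-/

set_option autoImplicit false

namespace Pool.Agent.TH536.EW

open Finset Pool.Agent.H771R3.EN

theorem triv (A δ u : ℝ) (N : ℕ) (hδ : 0 < δ) (hδ1 : δ ≤ 1) (hN : 1 ≤ N) (hA : 0 ≤ A)
    (h : (N : ℝ) ^ u ≤ A) : (N : ℝ) ≤ A / δ * (N : ℝ) ^ (1 - u) := by
  have hN0 : (0 : ℝ) < N := by exact_mod_cast hN
  have h1 : (N : ℝ) ^ u * (N : ℝ) ^ (1 - u) = N := by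
    rw [← Real.rpow_add hN0]
    simp
  have h2 : A ≤ A / δ := by
    rw [le_div_iff₀ hδ]
    nlinarith
  calc (N : ℝ) = (N : ℝ) ^ u * (N : ℝ) ^ (1 - u) := h1.symm
    _ ≤ A / δ * (N : ℝ) ^ (1 - u) :=
      mul_le_mul_of_nonneg_right (h.trans h2) (Real.rpow_nonneg hN0.le _)

/-- the bound in a window, in real terms -/
theorem window_real (k c W t : ℕ) (y : ℝ) (hk : 1 ≤ k) (hW : 1 ≤ W) (hy : 0 < y)
    (hyk : y ^ k = W) (h : c ^ k < (4 * W) ^ (k - 1) * (t + 1)) :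
    (c : ℝ) ≤ 4 * ((t : ℝ) + 1) * W / y := by
  by_contra hlt
  rw [not_le] at hlt
  have hW0 : (0 : ℝ) < W := by exact_mod_cast hW
  have h1 : (4 * ((t : ℝ) + 1) * W / y) ^ k < (c : ℝ) ^ k :=
    pow_lt_pow_left₀ hlt (by positivity) (by omega)
  have h2 : (4 * ((t : ℝ) + 1) * W / y) ^ k = (4 * ((t : ℝ) + 1)) ^ k * (W : ℝ) ^ (k - 1) := by
    rw [div_pow, mul_pow, hyk]
    have : (W : ℝ) ^ k = (W : ℝ) ^ (k - 1) * W := by
      rw [← pow_succ]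
      congr 1
      omega
    rw [this]
    field_simp
  have h3 : (c : ℝ) ^ k < ((4 * W) ^ (k - 1) * (t + 1) : ℕ) := by exact_mod_cast h
  have h4 : (((4 * W) ^ (k - 1) * (t + 1) : ℕ) : ℝ) ≤
      (4 * ((t : ℝ) + 1)) ^ k * (W : ℝ) ^ (k - 1) := by
    push_cast
    rw [mul_pow]
    have e : (4 * ((t : ℝ) + 1)) ^ k = (4 * ((t : ℝ) + 1)) ^ (k - 1) * (4 * ((t : ℝ) + 1)) := by
      rw [← pow_succ]
      congr 1
      omega
    rw [e]
    have h5 : (4 : ℝ) ^ (k - 1) ≤ (4 * ((t : ℝ) + 1)) ^ (k - 1) := by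
      apply pow_le_pow_left₀ (by norm_num)
      have : (0 : ℝ) ≤ t := Nat.cast_nonneg _
      linarith
    have h6 : (t : ℝ) + 1 ≤ 4 * ((t : ℝ) + 1) := by
      have : (0 : ℝ) ≤ t := Nat.cast_nonneg _
      linarith
    calc (4 : ℝ) ^ (k - 1) * (W : ℝ) ^ (k - 1) * ((t : ℝ) + 1)
        = ((4 : ℝ) ^ (k - 1) * ((t : ℝ) + 1)) * (W : ℝ) ^ (k - 1) := by ring
      _ ≤ ((4 * ((t : ℝ) + 1)) ^ (k - 1) * (4 * ((t : ℝ) + 1))) * (W : ℝ) ^ (k - 1) := by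
          apply mul_le_mul_of_nonneg_right _ (by positivity)
          exact mul_le_mul h5 h6 (by positivity) (by positivity)
  rw [h2] at h1
  linarith

open Classical in
theorem main (hF : S_FORM) (hV : S_VB) (hP : S_PAR) (s : ℕ) :
    ∃ n1 : ℕ, ∀ (δ a Q : ℝ) (P : Polynomial ℝ) (N : ℕ), 0 < δ → δ ≤ 1 → 3 ≤ N → n1 ^ 2 ≤ N →
      128 * Real.log (Real.log N) ≤ δ * Real.log N →
      1 ≤ |a| → 1 ≤ Q → P.degree < (s : WithBot ℕ) →
      (((Icc 1 N).filter (Bad a P Q δ (12 * 2 ^ s))).card : ℝ) ≤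
        98 / δ * (N : ℝ) ^ (1 - δ ^ 2 / (400 * 2 ^ s)) := by
  obtain ⟨n1, hw⟩ := win hF hV hP s
  refine ⟨n1, ?_⟩
  intro δ a Q P N hδ hδ1 hN hNn hl ha hQ hdeg
  have hN0 : (0 : ℝ) < N := by
    have : 0 < N := by omega
    exact_mod_cast this
  have hN1 : (1 : ℝ) ≤ N := by
    have : 1 ≤ N := by omega
    exact_mod_cast this
  have hl1 : 1 ≤ Real.log N := by
    have h3 : (3 : ℝ) ≤ N := by exact_mod_cast hN
    rw [Real.le_log_iff_exp_le hN0]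
    have := Real.exp_one_lt_d9
    linarith
  obtain ⟨k, hk⟩ : ∃ k, k = 2 ^ s := ⟨_, rfl⟩
  have hk1 : 1 ≤ k := by rw [hk]; exact Nat.one_le_two_pow
  have hkr : (1 : ℝ) ≤ k := by exact_mod_cast hk1
  have hk2 : (2 : ℝ) ^ s = k := by rw [hk]; push_cast; rfl
  obtain ⟨t, ht⟩ : ∃ t, t = ⌈4 / δ⌉₊ := ⟨_, rfl⟩
  have h4δ : 4 ≤ 4 / δ := by
    rw [le_div_iff₀ hδ]
    nlinarith
  have h1δ : 1 ≤ 1 / δ := by
    rw [le_div_iff₀ hδ]
    linarith
  have ht1 : 4 / δ ≤ t := by rw [ht]; exact Nat.le_ceil _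
  have ht2 : (t : ℝ) < 4 / δ + 1 := by rw [ht]; exact Nat.ceil_lt_add_one (by positivity)
  have ht4 : (4 : ℝ) ≤ t := h4δ.trans ht1
  have ht5 : (t : ℝ) ≤ 5 / δ := by
    have : 5 / δ = 4 / δ + 1 / δ := by ring
    linarith
  have ht6 : (t : ℝ) + 1 ≤ 6 / δ := by
    have : 6 / δ = 5 / δ + 1 / δ := by ring
    linarith
  obtain ⟨kap, hkap⟩ : ∃ kap : ℝ, kap = δ / (16 * ((t : ℝ) + 1)) := ⟨_, rfl⟩
  have hkap0 : 0 < kap := by rw [hkap]; positivity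
  have hkap1 : kap ≤ 1 := by
    rw [hkap, div_le_one (by positivity)]
    linarith
  have hkap2 : δ ^ 2 / 400 ≤ kap / 2 := by
    rw [hkap, div_div, div_le_div_iff₀ (by norm_num) (by positivity)]
    have h5 : ((t : ℝ) + 1) * δ ≤ 6 := by
      rw [le_div_iff₀ hδ] at ht6
      exact ht6
    nlinarith
  obtain ⟨x, hx⟩ : ∃ x : ℝ, x = (N : ℝ) ^ (kap / 2) := ⟨_, rfl⟩
  have hx1 : 1 ≤ x := by rw [hx]; exact Real.one_le_rpow hN1 (by positivity)
  obtain ⟨W, hWd⟩ : ∃ W, W = ⌊x⌋₊ := ⟨_, rfl⟩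
  have hW1 : 1 ≤ W := by rw [hWd]; exact Nat.le_floor (by exact_mod_cast hx1)
  have hWx : (W : ℝ) ≤ x := by rw [hWd]; exact Nat.floor_le (by linarith)
  have hxW : x ≤ 2 * W := by
    have h5 : x < W + 1 := by rw [hWd]; exact Nat.lt_floor_add_one x
    have h6 : (1 : ℝ) ≤ W := by exact_mod_cast hW1
    linarith
  have hW0 : (0 : ℝ) < W := by
    have h6 : (1 : ℝ) ≤ W := by exact_mod_cast hW1
    linarith
  have hlogW : Real.log W ≤ kap / 2 * Real.log N := by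
    rw [← Real.log_rpow hN0, ← hx]
    exact Real.log_le_log hW0 hWx
  obtain ⟨a0, ha0⟩ : ∃ a0, a0 = ⌈Real.sqrt N⌉₊ := ⟨_, rfl⟩
  have ha1 : Real.sqrt N ≤ a0 := by rw [ha0]; exact Nat.le_ceil _
  have ha2 : (a0 : ℝ) ≤ Real.sqrt N + 1 := by
    rw [ha0]; exact (Nat.ceil_lt_add_one (Real.sqrt_nonneg _)).le
  have hsq1 : 1 ≤ Real.sqrt N := Real.one_le_sqrt.2 hN1
  have hn1a : n1 ≤ a0 := by
    have h5 : (n1 : ℝ) ≤ Real.sqrt N := by
      apply Real.le_sqrt_of_sq_le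
      exact_mod_cast hNn
    exact_mod_cast h5.trans ha1
  have hWN : (W : ℝ) ≤ N := hWx.trans (by
    rw [hx]
    calc (N : ℝ) ^ (kap / 2) ≤ (N : ℝ) ^ (1 : ℝ) :=
          Real.rpow_le_rpow_of_exponent_le hN1 (by linarith)
      _ = N := Real.rpow_one _)
  -- the root of `W`
  obtain ⟨y, hy⟩ : ∃ y : ℝ, y = (W : ℝ) ^ (1 / (k : ℝ)) := ⟨_, rfl⟩
  have hy0 : 0 < y := by rw [hy]; exact Real.rpow_pos_of_pos hW0 _
  have hyk : y ^ k = W := by
    rw [hy, ← Real.rpow_natCast, ← Real.rpow_mul hW0.le]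
    have : 1 / (k : ℝ) * (k : ℝ) = 1 := by
      field_simp
    rw [this, Real.rpow_one]
  have hwin : ∀ i, a0 + i * W ≤ N →
      (((range W).filter (fun j => Bad a P Q δ (12 * 2 ^ s) (a0 + i * W + j))).card : ℝ) ≤
      4 * ((t : ℝ) + 1) * W / y := by
    intro i hi
    have hnN : ((a0 + i * W : ℕ) : ℝ) ≤ N := by exact_mod_cast hi
    have hna : Real.sqrt N ≤ ((a0 + i * W : ℕ) : ℝ) := by
      refine ha1.trans ?_
      exact_mod_cast Nat.le_add_right a0 (i * W)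
    have hn0 : (0 : ℝ) < ((a0 + i * W : ℕ) : ℝ) := by linarith
    have hlog1 : Real.log N / 2 ≤ Real.log ((a0 + i * W : ℕ) : ℝ) := by
      rw [← Real.log_sqrt hN0.le]
      exact Real.log_le_log (by linarith) hna
    have hlog2 : Real.log ((a0 + i * W : ℕ) : ℝ) ≤ Real.log N := Real.log_le_log hn0 hnN
    have hlog3 : Real.log (Real.log ((a0 + i * W : ℕ) : ℝ)) ≤ Real.log (Real.log N) := by
      rcases lt_or_ge 0 (Real.log ((a0 + i * W : ℕ) : ℝ)) with h | h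
      · exact Real.log_le_log h hlog2
      · linarith
    have hlog4 : δ * (Real.log N / 2) ≤ δ * Real.log ((a0 + i * W : ℕ) : ℝ) :=
      mul_le_mul_of_nonneg_left hlog1 hδ.le
    refine window_real k _ W t y hk1 hW1 hy0 hyk ?_
    rw [hk, ht]
    refine hw (a0 + i * W) W δ a Q P (by omega) hδ hδ1 ?_ hW1 ?_ ha hQ hdeg _
      (filter_subset _ _) (fun j hj => (mem_filter.1 hj).2)
    · linarith
    · rw [← ht]
      have h5 : 16 * ((t : ℝ) + 1) * (kap / 2 * Real.log N) = δ * (Real.log N / 2) := by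
        rw [hkap]
        field_simp
      calc 16 * ((t : ℝ) + 1) * Real.log W ≤ 16 * ((t : ℝ) + 1) * (kap / 2 * Real.log N) := by
            gcongr
        _ ≤ _ := by rw [h5]; exact hlog4
  have hcov := arc_cover (Bad a P Q δ (12 * 2 ^ s)) N a0 W hW1 _ (by positivity) hwin
  obtain ⟨Z, hZ⟩ : ∃ Z : ℝ, Z = (N : ℝ) ^ (1 - δ ^ 2 / (400 * 2 ^ s)) := ⟨_, rfl⟩
  have hZ0 : 0 < Z := by rw [hZ]; exact Real.rpow_pos_of_pos hN0 _
  have hdiv : ((N / W : ℕ) : ℝ) ≤ N / W := Nat.cast_div_le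
  have hNW : 1 ≤ (N : ℝ) / W := by rw [le_div_iff₀ hW0]; linarith
  have hprod : ((N / W + 1 : ℕ) : ℝ) * (4 * ((t : ℝ) + 1) * W / y) ≤
      8 * ((t : ℝ) + 1) * (N / y) := by
    calc ((N / W + 1 : ℕ) : ℝ) * (4 * ((t : ℝ) + 1) * W / y)
        ≤ (2 * ((N : ℝ) / W)) * (4 * ((t : ℝ) + 1) * W / y) := by
          push_cast
          gcongr
          linarith
      _ = 8 * ((t : ℝ) + 1) * (N / y) := by
          field_simp
          ring
  have hyx : x ^ (1 / (k : ℝ)) ≤ 2 * y := by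
    have h1k : 0 ≤ 1 / (k : ℝ) := by positivity
    calc x ^ (1 / (k : ℝ)) ≤ (2 * W) ^ (1 / (k : ℝ)) :=
          Real.rpow_le_rpow (by linarith) hxW h1k
      _ = 2 ^ (1 / (k : ℝ)) * y := by rw [Real.mul_rpow (by norm_num) hW0.le, hy]
      _ ≤ 2 * y := by
          apply mul_le_mul_of_nonneg_right _ hy0.le
          calc (2 : ℝ) ^ (1 / (k : ℝ)) ≤ 2 ^ (1 : ℝ) := by
                apply Real.rpow_le_rpow_of_exponent_le (by norm_num)
                rw [div_le_one (by linarith)]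
                exact hkr
            _ = 2 := Real.rpow_one _
  have hNy : (N : ℝ) / y ≤ 2 * Z := by
    have h5 : (N : ℝ) / (x ^ (1 / (k : ℝ))) ≤ Z := by
      rw [hx, ← Real.rpow_mul hN0.le, hZ]
      have h6 : (N : ℝ) / (N : ℝ) ^ (kap / 2 * (1 / (k : ℝ))) =
          (N : ℝ) ^ (1 - kap / 2 * (1 / (k : ℝ))) := by
        rw [Real.rpow_sub hN0, Real.rpow_one]
      rw [h6]
      apply Real.rpow_le_rpow_of_exponent_le hN1
      rw [hk2]
      have h7 : δ ^ 2 / (400 * (k : ℝ)) = δ ^ 2 / 400 * (1 / (k : ℝ)) := by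
        field_simp
      rw [h7]
      have h8 : δ ^ 2 / 400 * (1 / (k : ℝ)) ≤ kap / 2 * (1 / (k : ℝ)) :=
        mul_le_mul_of_nonneg_right hkap2 (by positivity)
      linarith
    have hx0 : 0 < x ^ (1 / (k : ℝ)) := Real.rpow_pos_of_pos (by linarith) _
    have h6 : (N : ℝ) / y ≤ 2 * (N / (x ^ (1 / (k : ℝ)))) := by
      rw [div_le_iff₀ hy0]
      have h7 : (N : ℝ) ≤ N / (x ^ (1 / (k : ℝ))) * (2 * y) := by
        rw [div_mul_eq_mul_div, le_div_iff₀ hx0]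
        exact mul_le_mul_of_nonneg_left hyx hN0.le
      linarith
    linarith
  have hsqN : Real.sqrt N ≤ Z := by
    rw [Real.sqrt_eq_rpow, hZ]
    refine Real.rpow_le_rpow_of_exponent_le hN1 ?_
    have h5 : δ ^ 2 / (400 * 2 ^ s) ≤ 1 / 2 := by
      rw [hk2, div_le_div_iff₀ (by positivity) (by norm_num)]
      nlinarith
    linarith
  rw [← hZ]
  calc (((Icc 1 N).filter (Bad a P Q δ (12 * 2 ^ s))).card : ℝ)
      ≤ a0 + ((N / W + 1 : ℕ) : ℝ) * (4 * ((t : ℝ) + 1) * W / y) := hcov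
    _ ≤ 2 * Z + 8 * ((t : ℝ) + 1) * (2 * Z) := by
        have h5 : 8 * ((t : ℝ) + 1) * (N / y) ≤ 8 * ((t : ℝ) + 1) * (2 * Z) :=
          mul_le_mul_of_nonneg_left hNy (by positivity)
        linarith
    _ = (2 + 16 * ((t : ℝ) + 1)) * Z := by ring
    _ ≤ 98 / δ * Z := by
        refine mul_le_mul_of_nonneg_right ?_ hZ0.le
        have h5 : 98 / δ = 16 * (6 / δ) + 2 * (1 / δ) := by ring
        linarith

open Classical in
theorem arc (hF : S_FORM) (hV : S_VB) (hP : S_PAR) (s : ℕ) :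
    ∃ A : ℝ, 0 < A ∧ ∀ (δ a Q : ℝ) (P : Polynomial ℝ) (N : ℕ), 0 < δ → δ ≤ 1 → 1 ≤ N →
      1 ≤ |a| → 1 ≤ Q → P.degree < (s : WithBot ℕ) →
      (((Icc 1 N).filter (Bad a P Q δ (12 * 2 ^ s))).card : ℝ) ≤
        A / δ * (N : ℝ) ^ (1 - δ ^ 2 / (400 * 2 ^ s)) := by
  obtain ⟨n1, hn1⟩ := main hF hV hP s
  refine ⟨(n1 ^ 2 + 3 : ℕ) + Real.exp 164 + 98, by positivity, ?_⟩
  intro δ a Q P N hδ hδ1 hN ha hQ hdeg
  have hN1 : (1 : ℝ) ≤ N := by exact_mod_cast hN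
  have hN0 : (0 : ℝ) < N := by linarith
  have hcard : (((Icc 1 N).filter (Bad a P Q δ (12 * 2 ^ s))).card : ℝ) ≤ N := by
    have h5 := card_filter_le (Icc 1 N) (Bad a P Q δ (12 * 2 ^ s))
    rw [Nat.card_Icc] at h5
    have h6 : N + 1 - 1 = N := by omega
    rw [h6] at h5
    exact_mod_cast h5
  have h2s : (1 : ℝ) ≤ 2 ^ s := one_le_pow₀ (by norm_num)
  have hexp : δ ^ 2 / (400 * 2 ^ s) ≤ δ ^ 2 / 400 := by
    apply div_le_div_of_nonneg_left (by positivity) (by norm_num)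
    linarith
  have hcast : (0 : ℝ) ≤ ((n1 ^ 2 + 3 : ℕ) : ℝ) := Nat.cast_nonneg _
  have hexp0 := Real.exp_pos 164
  by_cases hsmall : N < n1 ^ 2 + 3
  · refine hcard.trans ?_
    refine triv _ δ _ N hδ hδ1 hN (by positivity) ?_
    calc (N : ℝ) ^ (δ ^ 2 / (400 * 2 ^ s)) ≤ (N : ℝ) ^ (1 : ℝ) :=
          Real.rpow_le_rpow_of_exponent_le hN1 (by nlinarith)
      _ = N := Real.rpow_one _
      _ ≤ ((n1 ^ 2 + 3 : ℕ) : ℝ) := by exact_mod_cast hsmall.le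
      _ ≤ _ := by linarith
  · have hN3 : 3 ≤ N := by omega
    by_cases hl : δ * Real.log N < 128 * Real.log (Real.log N)
    · refine hcard.trans ?_
      refine triv _ δ _ N hδ hδ1 hN (by positivity) ?_
      refine (Real.rpow_le_rpow_of_exponent_le hN1 hexp).trans ?_
      refine (arc_log δ N hδ hN3 hl).trans ?_
      linarith
    · push Not at hl
      refine (hn1 δ a Q P N hδ hδ1 hN3 (by omega) hl ha hQ hdeg).trans ?_
      gcongr
      linarith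

end Pool.Agent.TH536.EW
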