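import Pool.Agent.TH536.EW.Iter

/-!
# Contradiction from many values close to rational numbers
-/

set_option autoImplicit false

namespace Pool.Agent.TH536.EW

open Finset Pool.Agent.H771R3.EN

theorem V_pos (T : Finset ℕ) : 0 < V T := by
  unfold V
  refine Finset.prod_pos fun i _ => Finset.prod_pos fun l hl => ?_
  have := (Finset.mem_filter.mp hl).2
  omega

theorem con (h : S_FORM) (T : Finset ℕ) (m W : ℕ) (Q ψ A : ℝ) (hT : T.Nonempty) (hm : 1 ≤ m)
    (hW : ∀ j ∈ T, j ≤ W) (hA : 0 < |A|) (hψ : 0 ≤ ψ)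
    (happ : ∀ j ∈ T, App Q ψ (A * Real.exp j))
    (h1 : 2 * Q ^ T.card * |A| * Real.exp W * (V T : ℝ) ^ (2 * m) * ((m - 1).factorial : ℝ) ≤
      ((m * T.card - 1).factorial : ℝ))
    (h2 : 3 * (T.card : ℝ) * 2 ^ (m * T.card) * ((m * T.card - 1).factorial : ℝ) * ψ < |A|) :
    False := by
  obtain ⟨c, g, hsum, hg1, hg2, hc⟩ := h T m W hT hm hW
  choose! q b hq1 hq2 hq3 using happ
  have hVpos : (0 : ℝ) < (V T : ℝ) := by exact_mod_cast V_pos T
  set P : ℝ := (V T : ℝ) ^ (2 * m) * ((m - 1).factorial : ℝ) with hP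
  have hPpos : 0 < P := by
    have : (0 : ℝ) < ((m - 1).factorial : ℝ) := by exact_mod_cast Nat.factorial_pos _
    positivity
  set F : ℝ := ((m * T.card - 1).factorial : ℝ) with hF
  have hFpos : 0 < F := by
    have : (0 : ℝ) < ((m * T.card - 1).factorial : ℝ) := by exact_mod_cast Nat.factorial_pos _
    exact this
  have hgl : 1 ≤ g * F := by
    have := (div_le_iff₀ hFpos).mp hg1
    linarith
  have hgu : g * F ≤ Real.exp W := by
    have := (le_div_iff₀ hFpos).mp hg2
    linarith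
  have hgpos : 0 < g := by
    have : 0 < 1 / F := by positivity
    linarith
  -- the common denominator
  set D : ℕ := ∏ j ∈ T, q j with hD
  have hD1 : 1 ≤ D := by
    have : 0 < D := Finset.prod_pos fun j hj => hq1 j hj
    exact this
  have hD0 : (0 : ℝ) < D := by exact_mod_cast hD1
  have hDQ : (D : ℝ) ≤ Q ^ T.card := by
    rw [hD]
    push_cast
    calc ∏ j ∈ T, (q j : ℝ) ≤ ∏ _j ∈ T, Q := by
          apply Finset.prod_le_prod
          · intro j _
            exact Nat.cast_nonneg _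
          · intro j hj
            exact hq2 j hj
      _ = Q ^ T.card := by rw [Finset.prod_const]
  have hdvd : ∀ j ∈ T, q j ∣ D := fun j hj => Finset.dvd_prod_of_mem _ hj
  set Z : ℤ := ∑ j ∈ T, c j * (b j * ((D / q j : ℕ) : ℤ)) with hZ
  have hZr : (Z : ℝ) = D * ∑ j ∈ T, (c j : ℝ) * ((b j : ℝ) / q j) := by
    rw [hZ, Finset.mul_sum, Int.cast_sum]
    refine Finset.sum_congr rfl fun j hj => ?_
    rw [Int.cast_mul, Int.cast_mul, Int.cast_natCast]
    have hqj : (q j : ℝ) ≠ 0 := by
      have := hq1 j hj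
      positivity
    obtain ⟨r, hr⟩ := hdvd j hj
    have hr2 : D / q j = r := by
      rw [hr]
      exact Nat.mul_div_cancel_left r (hq1 j hj)
    rw [hr2, hr]
    push_cast
    field_simp
  set v : ℝ := A * (P * g) with hv
  have hvs : ∑ j ∈ T, (c j : ℝ) * (A * Real.exp j) = v := by
    rw [hv, ← hsum, Finset.mul_sum]
    refine Finset.sum_congr rfl fun j _ => ?_
    ring
  have herr : |(Z : ℝ) - D * v| ≤ D * (ψ * (3 * (T.card : ℝ) * P * 2 ^ (m * T.card))) := by
    have e1 : (Z : ℝ) - D * v =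
        D * ∑ j ∈ T, (c j : ℝ) * ((b j : ℝ) / q j - A * Real.exp j) := by
      rw [hZr, ← hvs, ← mul_sub, ← Finset.sum_sub_distrib]
      congr 1
      refine Finset.sum_congr rfl fun j _ => ?_
      ring
    rw [e1, abs_mul, abs_of_pos hD0]
    refine mul_le_mul_of_nonneg_left ?_ hD0.le
    refine (Finset.abs_sum_le_sum_abs _ _).trans ?_
    have e2 : ∑ j ∈ T, |(c j : ℝ) * ((b j : ℝ) / q j - A * Real.exp j)| ≤
        ∑ j ∈ T, ψ * |(c j : ℝ)| := by
      refine Finset.sum_le_sum fun j hj => ?_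
      rw [abs_mul, mul_comm, abs_sub_comm]
      exact mul_le_mul_of_nonneg_right (hq3 j hj) (abs_nonneg _)
    refine e2.trans ?_
    rw [← Finset.mul_sum]
    refine mul_le_mul_of_nonneg_left (hc.trans (le_of_eq ?_)) hψ
    rw [hP]; ring
  have hvabs : |v| = |A| * (P * g) := by
    rw [hv, abs_mul, abs_of_pos (mul_pos hPpos hgpos)]
  have hDv : |(D : ℝ) * v| = D * (|A| * (P * g)) := by
    rw [abs_mul, abs_of_pos hD0, hvabs]
  -- the error is smaller than the value
  have herr2 : D * (ψ * (3 * (T.card : ℝ) * P * 2 ^ (m * T.card))) < D * (|A| * (P * g)) := by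
    apply mul_lt_mul_of_pos_left _ hD0
    have h3 : ψ * (3 * (T.card : ℝ) * P * 2 ^ (m * T.card)) * F < |A| * P := by
      have e : ψ * (3 * (T.card : ℝ) * P * 2 ^ (m * T.card)) * F =
        (3 * (T.card : ℝ) * 2 ^ (m * T.card) * F * ψ) * P := by ring
      rw [e]
      exact mul_lt_mul_of_pos_right h2 hPpos
    have h4 : |A| * P ≤ |A| * (P * g) * F := by
      have e : |A| * (P * g) * F = (|A| * P) * (g * F) := by ring
      rw [e]
      exact le_mul_of_one_le_right (by positivity) hgl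
    exact lt_of_mul_lt_mul_right (h3.trans_le h4) hFpos.le
  -- the value is at most `1 / 2`
  have hup : 2 * (D * (|A| * (P * g))) ≤ 1 := by
    have e : 2 * (D * (|A| * (P * g))) * F = 2 * D * |A| * (g * F) * P := by ring
    have h3 : 2 * (D : ℝ) * |A| * (g * F) * P ≤ 2 * Q ^ T.card * |A| * Real.exp W * P := by
      have hQc : 0 < Q ^ T.card := hD0.trans_le hDQ
      apply mul_le_mul_of_nonneg_right _ hPpos.le
      exact mul_le_mul (mul_le_mul_of_nonneg_right
        (mul_le_mul_of_nonneg_left hDQ (by norm_num)) hA.le) hgu (by positivity) (by positivity)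
    have h4 : 2 * Q ^ T.card * |A| * Real.exp W * P ≤ F := by
      rw [hP, ← mul_assoc]
      exact h1
    have h5 : 2 * (D * (|A| * (P * g))) * F ≤ 1 * F := by
      rw [e, one_mul]
      exact h3.trans h4
    exact le_of_mul_le_mul_right h5 hFpos
  have hlt := herr.trans_lt herr2
  rw [← hDv] at hlt hup
  have hZ0 : Z ≠ 0 := by
    intro h0
    rw [h0] at hlt
    simp at hlt
  have hZ1 : |(Z : ℝ)| < 1 := by
    have h3 : |(Z : ℝ)| ≤ |(Z : ℝ) - D * v| + |(D : ℝ) * v| := by
      have := abs_add_le ((Z : ℝ) - D * v) (D * v)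
      simpa using this
    linarith
  have hZ2 : (1 : ℝ) ≤ |(Z : ℝ)| := by
    have h3 : 1 ≤ |Z| := Int.one_le_abs hZ0
    exact_mod_cast h3
  linarith

end Pool.Agent.TH536.EW
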