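import Pool.Agent.H771R3.EN.Defs

/-!
# Iterated differences of sequences close to rational numbers
-/

set_option autoImplicit false

namespace Pool.Agent.TH536.EW

open Finset

/-- `x` is within `ψ` of a rational number with denominator at most `Q` -/
def App (Q ψ x : ℝ) : Prop := ∃ (q : ℕ) (b : ℤ), 1 ≤ q ∧ (q : ℝ) ≤ Q ∧ |x - b / q| ≤ ψ

/-- iterated differences -/
def iter : List ℕ → (ℕ → ℝ) → ℕ → ℝ
  | [], x => x
  | d :: l, x => iter l (fun k => x (k + d) - x k)

/-- the `j` for which all the points of the iterated difference are in the set -/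
def Sh : List ℕ → Finset ℕ → Finset ℕ
  | [], S => S
  | d :: l, S => Sh l (S.filter (fun j => j + d ∈ S))

theorem Sh_subset (l : List ℕ) (S : Finset ℕ) : Sh l S ⊆ S := by
  induction l generalizing S with
  | nil => exact Subset.rfl
  | cons d l ih => exact (ih _).trans (filter_subset _ _)

theorem app_mono {Q Q' ψ ψ' x : ℝ} (h : App Q ψ x) (hQ : Q ≤ Q') (hψ : ψ ≤ ψ') :
    App Q' ψ' x := by
  obtain ⟨q, b, h1, h2, h3⟩ := h
  exact ⟨q, b, h1, h2.trans hQ, h3.trans hψ⟩

theorem app_sub {Q ψ x y : ℝ} (hx : App Q ψ x) (hy : App Q ψ y) :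
    App (Q ^ 2) (2 * ψ) (y - x) := by
  obtain ⟨q, b, h1, h2, h3⟩ := hx
  obtain ⟨r, c, k1, k2, k3⟩ := hy
  have hq : (0 : ℝ) < q := by exact_mod_cast h1
  have hr : (0 : ℝ) < r := by exact_mod_cast k1
  refine ⟨r * q, c * q - b * r, Nat.mul_pos k1 h1, ?_, ?_⟩
  · push_cast
    rw [pow_two]
    exact mul_le_mul k2 h2 hq.le (hr.le.trans k2)
  · have e : y - x - ((c * q - b * r : ℤ) : ℝ) / ((r * q : ℕ) : ℝ) =
        (y - c / r) - (x - b / q) := by
      push_cast
      field_simp
      ring
    rw [e]
    have := abs_sub (y - (c : ℝ) / r) (x - b / q)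
    linarith

theorem app_iter (l : List ℕ) (S : Finset ℕ) (x : ℕ → ℝ) (Q ψ : ℝ)
    (h : ∀ k ∈ S, App Q ψ (x k)) : ∀ j ∈ Sh l S,
      App (Q ^ (2 ^ l.length)) (2 ^ l.length * ψ) (iter l x j) := by
  induction l generalizing S x Q ψ with
  | nil =>
    intro j hj
    simpa [iter, Sh] using h j hj
  | cons d l ih =>
    intro j hj
    have h1 := ih (S.filter (fun j => j + d ∈ S)) (fun k => x (k + d) - x k) (Q ^ 2) (2 * ψ)
      (fun k hk => by
        rw [mem_filter] at hk
        exact app_sub (h k hk.1) (h _ hk.2)) j hj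
    have e1 : (Q ^ 2) ^ (2 ^ l.length) = Q ^ (2 ^ (d :: l).length) := by
      rw [← pow_mul, List.length_cons, pow_succ 2 l.length, mul_comm]
    have e2 : (2 : ℝ) ^ l.length * (2 * ψ) = 2 ^ (d :: l).length * ψ := by
      rw [List.length_cons, pow_succ]
      ring
    rw [e1, e2] at h1
    exact h1

theorem iter_add (l : List ℕ) (x y : ℕ → ℝ) (j : ℕ) :
    iter l (fun k => x k + y k) j = iter l x j + iter l y j := by
  induction l generalizing x y with
  | nil => rfl
  | cons d l ih =>
    show iter l (fun k => (x (k + d) + y (k + d)) - (x k + y k)) j = _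
    have e : (fun k => (x (k + d) + y (k + d)) - (x k + y k)) =
        fun k => (x (k + d) - x k) + (y (k + d) - y k) := by
      funext k
      ring
    rw [e, ih]
    rfl

theorem iter_exp (l : List ℕ) (A : ℝ) (j : ℕ) :
    iter l (fun k => A * Real.exp k) j =
      A * (l.map (fun d : ℕ => Real.exp d - 1)).prod * Real.exp j := by
  induction l generalizing A with
  | nil => simp [iter]
  | cons d l ih =>
    show iter l (fun k => A * Real.exp ((k + d : ℕ) : ℝ) - A * Real.exp k) j = _
    have e : (fun k : ℕ => A * Real.exp ((k + d : ℕ) : ℝ) - A * Real.exp k) =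
        fun k : ℕ => (A * (Real.exp d - 1)) * Real.exp k := by
      funext k
      push_cast
      rw [Real.exp_add]
      ring
    rw [e, ih, List.map_cons, List.prod_cons]
    ring

theorem iter_poly (l : List ℕ) (P : Polynomial ℝ) (h : P.degree < (l.length : WithBot ℕ))
    (j : ℕ) : iter l (fun k => P.eval (k : ℝ)) j = 0 := by
  induction l generalizing P with
  | nil =>
    have : P = 0 := by
      rw [← Polynomial.degree_eq_bot]
      rw [List.length_nil] at h
      exact Nat.WithBot.lt_zero_iff.1 h
    rw [this]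
    simp [iter]
  | cons d l ih =>
    show iter l (fun k : ℕ => P.eval ((k + d : ℕ) : ℝ) - P.eval (k : ℝ)) j = 0
    have e : (fun k : ℕ => P.eval ((k + d : ℕ) : ℝ) - P.eval (k : ℝ)) =
        fun k : ℕ => (Polynomial.taylor (d : ℝ) P - P).eval (k : ℝ) := by
      funext k
      rw [Polynomial.eval_sub, Polynomial.taylor_eval]
      push_cast
      rfl
    rw [e]
    apply ih
    by_cases hP : P = 0
    · rw [hP]
      simp
    have hd : (Polynomial.taylor (d : ℝ) P - P).degree < (Polynomial.taylor (d : ℝ) P).degree := by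
      apply Polynomial.degree_sub_lt_left
      · rw [Polynomial.degree_taylor]
      · intro h0
        apply hP
        have := Polynomial.taylor_injective (d : ℝ)
        apply this
        rw [h0, map_zero]
      · rw [Polynomial.leadingCoeff_taylor]
    rw [Polynomial.degree_taylor] at hd
    rw [List.length_cons] at h
    have h3 : P.degree = (P.natDegree : WithBot ℕ) := Polynomial.degree_eq_natDegree hP
    rw [h3] at h hd
    have h4 : P.natDegree < l.length + 1 := by exact_mod_cast h
    have h5 : (P.natDegree : WithBot ℕ) ≤ (l.length : WithBot ℕ) := by exact_mod_cast Nat.lt_succ_iff.1 h4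
    exact hd.trans_le h5

theorem prod_bounds (l : List ℕ) (W : ℕ) (h : ∀ d ∈ l, 1 ≤ d ∧ d ≤ W) :
    1 ≤ (l.map (fun d : ℕ => Real.exp d - 1)).prod ∧
      (l.map (fun d : ℕ => Real.exp d - 1)).prod ≤ Real.exp (l.length * W) := by
  induction l with
  | nil => simp
  | cons d l ih =>
    obtain ⟨h1, h2⟩ := ih (fun d hd => h d (List.mem_cons_of_mem _ hd))
    obtain ⟨h3, h4⟩ := h d List.mem_cons_self
    have h5 : 1 ≤ Real.exp (d : ℝ) - 1 := by
      have := Real.add_one_le_exp (d : ℝ)
      have h6 : (1 : ℝ) ≤ d := by exact_mod_cast h3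
      linarith
    have h6 : Real.exp (d : ℝ) - 1 ≤ Real.exp W := by
      have : Real.exp (d : ℝ) ≤ Real.exp (W : ℝ) := Real.exp_le_exp.2 (by exact_mod_cast h4)
      linarith
    rw [List.map_cons, List.prod_cons]
    constructor
    · nlinarith
    · have e : Real.exp (((d :: l).length : ℝ) * W) = Real.exp W * Real.exp (l.length * W) := by
        rw [← Real.exp_add, List.length_cons]
        congr 1
        push_cast
        ring
      rw [e]
      exact mul_le_mul h6 h2 (by linarith) (Real.exp_pos _).le

end Pool.Agent.TH536.EW
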