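import Pool.Agent.TH536.EW.Iter
import Pool.Agent.H771R3.EN.PIG

/-!
# Many cubes with the same differences
-/

set_option autoImplicit false

namespace Pool.Agent.TH536.EW

open Finset Pool.Agent.H771R3.EN

theorem pig_iter (s : ℕ) (S : Finset ℕ) (W t : ℕ) (hW : 1 ≤ W) (hS : S ⊆ range W)
    (h : (4 * W) ^ (2 ^ s - 1) * (t + 1) ≤ S.card ^ (2 ^ s)) :
    ∃ l : List ℕ, l.length = s ∧ (∀ d ∈ l, 1 ≤ d ∧ d ≤ W) ∧ t + 1 ≤ (Sh l S).card := by
  induction s generalizing S with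
  | zero => exact ⟨[], rfl, by simp, by simpa [Sh] using h⟩
  | succ s ih =>
    obtain ⟨k, hk⟩ : ∃ k, k = 2 ^ s := ⟨_, rfl⟩
    have hk1 : 1 ≤ k := by rw [hk]; exact Nat.one_le_two_pow
    have h2k : 2 ^ (s + 1) = 2 * k := by rw [hk, pow_succ]; ring
    rw [h2k] at h
    obtain ⟨σ, hσ⟩ : ∃ σ, σ = S.card := ⟨_, rfl⟩
    rw [← hσ] at h
    have h4 : 4 ≤ (4 * W) ^ (2 * k - 1) * (t + 1) := by
      calc 4 = 4 ^ 1 * 1 := by norm_num
        _ ≤ (4 * W) ^ (2 * k - 1) * (t + 1) := by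
          apply Nat.mul_le_mul _ (by omega)
          calc 4 ^ 1 ≤ (4 * W) ^ 1 := Nat.pow_le_pow_left (by omega) 1
            _ ≤ (4 * W) ^ (2 * k - 1) := Nat.pow_le_pow_right (by omega) (by omega)
    have hσ2 : 2 ≤ σ := by
      by_contra hlt
      have h5 : σ ≤ 1 := by omega
      have h6 : σ ^ (2 * k) ≤ 1 := by
        calc σ ^ (2 * k) ≤ 1 ^ (2 * k) := Nat.pow_le_pow_left h5 _
          _ = 1 := one_pow _
      omega
    -- the number of pairs with the same difference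
    obtain ⟨u, hu⟩ : ∃ u, u = (σ ^ 2 - 1) / (4 * W) := ⟨_, rfl⟩
    have hσsq : 4 ≤ σ ^ 2 := by nlinarith
    have hu1 : u * (4 * W) ≤ σ ^ 2 - 1 := by rw [hu]; exact Nat.div_mul_le_self _ _
    have hu2 : σ ^ 2 ≤ (u + 1) * (4 * W) := by
      have : σ ^ 2 - 1 < (u + 1) * (4 * W) := by
        rw [hu]
        have := Nat.lt_div_mul_add (a := σ ^ 2 - 1) (b := 4 * W) (by omega)
        linarith
      omega
    have hcond : 2 * u * W < S.card * (S.card - 1) := by
      rw [← hσ]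
      have h5 : σ * σ ≤ 2 * (σ * (σ - 1)) := by
        obtain ⟨r, rfl⟩ : ∃ r, σ = r + 2 := ⟨σ - 2, by omega⟩
        simp only [show r + 2 - 1 = r + 1 from rfl]
        nlinarith
      have h6 : 2 * (2 * u * W) < σ * σ := by
        have : u * (4 * W) < σ ^ 2 := by omega
        nlinarith
      omega
    obtain ⟨d, hd1, hd2, hd3⟩ := t_PIG S W u hS hcond
    obtain ⟨l, hl1, hl2, hl3⟩ := ih (S.filter (fun j => j + d ∈ S))
      ((filter_subset _ _).trans hS) (by
        rw [← hk]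
        obtain ⟨τ, hτ⟩ : ∃ τ, τ = (S.filter (fun j => j + d ∈ S)).card := ⟨_, rfl⟩
        rw [← hτ] at hd3 ⊢
        have h5 : σ ^ 2 ≤ τ * (4 * W) := hu2.trans (Nat.mul_le_mul_right _ hd3)
        have h6 : σ ^ (2 * k) ≤ (τ * (4 * W)) ^ k := by
          rw [pow_mul]
          exact Nat.pow_le_pow_left h5 k
        have h7 : (4 * W) ^ k * ((4 * W) ^ (k - 1) * (t + 1)) ≤ (4 * W) ^ k * τ ^ k := by
          calc (4 * W) ^ k * ((4 * W) ^ (k - 1) * (t + 1)) = (4 * W) ^ (2 * k - 1) * (t + 1) := by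
                rw [← mul_assoc, ← pow_add]
                congr 2
                omega
            _ ≤ σ ^ (2 * k) := h
            _ ≤ (τ * (4 * W)) ^ k := h6
            _ = (4 * W) ^ k * τ ^ k := by rw [mul_pow]; ring
        exact Nat.le_of_mul_le_mul_left h7 (by positivity))
    refine ⟨d :: l, by rw [List.length_cons, hl1], ?_, hl3⟩
    intro e he
    rcases List.mem_cons.1 he with rfl | he
    · exact ⟨hd1, hd2.le⟩
    · exact hl2 e he

end Pool.Agent.TH536.EW
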