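import Pool.Agent.TH536.EW.Pig
import Pool.Agent.TH536.EW.Contra
import Pool.Agent.H771R3.EN.VB

/-!
# Few exceptional exponents in a short window
-/

set_option autoImplicit false

namespace Pool.Agent.TH536.EW

open Finset Pool.Agent.H771R3.EN

/-- `a e^k + P(k)` is very close to a rational number with denominator at most `Q` -/
def Bad (a : ℝ) (P : Polynomial ℝ) (Q δ K : ℝ) (k : ℕ) : Prop :=
  App Q ((|a| * Real.exp k) ^ (-(4 * δ)) * Q ^ (-(K / δ))) (a * Real.exp k + P.eval (k : ℝ))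

theorem size_lemma (s n : ℕ) (δ W : ℝ) (hn : Real.exp (Real.exp 1) ≤ n) (hns : (s + 1) ^ 4 ≤ n)
    (hl : 64 * Real.log (Real.log n) ≤ δ * Real.log n) (hW : W ≤ Real.sqrt n) :
    (s : ℝ) + 2 * s * W + 2 ≤ 3 * δ * n := by
  have hn0 : (0 : ℝ) < n := (Real.exp_pos _).trans_le hn
  have hle : Real.exp 1 ≤ Real.log n := by
    rw [Real.le_log_iff_exp_le hn0]
    exact hn
  have hl0 : 0 < Real.log n := (Real.exp_pos _).trans_le hle
  have hu1 : 1 ≤ Real.log (Real.log n) := by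
    rw [Real.le_log_iff_exp_le hl0]
    exact hle
  have h64 : 64 ≤ δ * Real.log n := by linarith
  have hδ : 0 < δ := by
    by_contra hcon
    push Not at hcon
    nlinarith
  -- the fourth root
  obtain ⟨r, hr⟩ : ∃ r : ℝ, r = Real.sqrt (Real.sqrt n) := ⟨_, rfl⟩
  have hr0 : 0 ≤ r := by rw [hr]; exact Real.sqrt_nonneg _
  have hr2 : r ^ 2 = Real.sqrt n := by rw [hr, Real.sq_sqrt (Real.sqrt_nonneg _)]
  have hr4 : r ^ 4 = n := by
    have : r ^ 4 = (r ^ 2) ^ 2 := by ring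
    rw [this, hr2, Real.sq_sqrt hn0.le]
  have hrs : (s : ℝ) + 1 ≤ r := by
    have h1 : ((s : ℝ) + 1) ^ 4 ≤ r ^ 4 := by
      rw [hr4]
      exact_mod_cast hns
    exact le_of_pow_le_pow_left₀ (by norm_num) hr0 h1
  have hr1 : 0 < r := lt_of_lt_of_le (by positivity) hrs
  have hlog : Real.log n ≤ 4 * r := by
    have h1 : Real.log n = 4 * Real.log r := by
      rw [← hr4, Real.log_pow]
      push_cast
      ring
    have h2 := Real.log_le_sub_one_of_pos hr1
    rw [h1]
    linarith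
  have hδr : 16 ≤ δ * r := by nlinarith
  have h3 : 16 * r ^ 3 ≤ δ * n := by
    rw [← hr4]
    have : r ^ 3 * 16 ≤ r ^ 3 * (δ * r) := mul_le_mul_of_nonneg_left hδr (by positivity)
    nlinarith
  have hW2 : W ≤ r ^ 2 := by rw [hr2]; exact hW
  have hs0 : (0 : ℝ) ≤ s := Nat.cast_nonneg _
  have hr1' : 1 ≤ r := by linarith
  have h4 : (s : ℝ) * W ≤ r * r ^ 2 := by
    have h5 : (s : ℝ) * W ≤ s * r ^ 2 := mul_le_mul_of_nonneg_left hW2 hs0
    have h6 : (s : ℝ) * r ^ 2 ≤ r * r ^ 2 := mul_le_mul_of_nonneg_right (by linarith) (by positivity)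
    linarith
  have h7 : r ≤ r ^ 3 := by
    have : 1 ≤ r ^ 2 := one_le_pow₀ hr1'
    nlinarith
  nlinarith

theorem win (hF : S_FORM) (hV : S_VB) (hP : S_PAR) (s : ℕ) :
    ∃ n1 : ℕ, ∀ (n W : ℕ) (δ a Q : ℝ) (P : Polynomial ℝ), n1 ≤ n → 0 < δ → δ ≤ 1 →
      64 * Real.log (Real.log n) ≤ δ * Real.log n → 1 ≤ W →
      16 * ((⌈4 / δ⌉₊ : ℝ) + 1) * Real.log W ≤ δ * Real.log n →
      1 ≤ |a| → 1 ≤ Q → P.degree < (s : WithBot ℕ) →
      ∀ S : Finset ℕ, S ⊆ range W → (∀ j ∈ S, Bad a P Q δ (12 * 2 ^ s) (n + j)) →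
        S.card ^ (2 ^ s) < (4 * W) ^ (2 ^ s - 1) * (⌈4 / δ⌉₊ + 1) := by
  obtain ⟨n1, hP⟩ := hP
  refine ⟨n1 + (s + 1) ^ 4 + ⌈Real.exp (Real.exp 1)⌉₊, ?_⟩
  intro n W δ a Q P hn hδ hδ1 hll hW hlW ha hQ hdeg S hS hbad
  by_contra hlt
  rw [not_lt] at hlt
  obtain ⟨t, ht⟩ : ∃ t, t = ⌈4 / δ⌉₊ := ⟨_, rfl⟩
  rw [← ht] at hlt hlW
  obtain ⟨l, hls, hld, hcard⟩ := pig_iter s S W t hW hS hlt
  obtain ⟨T, hTsub, hTcard⟩ := Finset.exists_subset_card_eq hcard
  have hTS : ∀ j ∈ T, j ∈ Sh l S := fun j hj => hTsub hj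
  have hTW : ∀ j ∈ T, j ≤ W := by
    intro j hj
    have h := hS (Sh_subset l S (hTS j hj))
    exact (mem_range.1 h).le
  have hne : T.Nonempty := by
    rw [← Finset.card_pos, hTcard]
    omega
  -- logarithms
  have hn' : Real.exp (Real.exp 1) ≤ (n : ℝ) := (Nat.le_ceil _).trans (by
    have : ⌈Real.exp (Real.exp 1)⌉₊ ≤ n := by omega
    exact_mod_cast this)
  have hn0 : (0 : ℝ) < n := (Real.exp_pos _).trans_le hn'
  have hle : Real.exp 1 ≤ Real.log n := by
    rw [Real.le_log_iff_exp_le hn0]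
    exact hn'
  have hl0 : 0 < Real.log n := (Real.exp_pos _).trans_le hle
  have t1 : 4 / δ ≤ (t : ℝ) := by rw [ht]; exact Nat.le_ceil _
  have t2 : (t : ℝ) < 4 / δ + 1 := by rw [ht]; exact Nat.ceil_lt_add_one (by positivity)
  have t3 : 4 ≤ (t : ℝ) := by
    refine le_trans ?_ t1
    rw [le_div_iff₀ hδ]
    nlinarith
  have t4 : (t : ℝ) + 1 ≤ 6 / δ := by
    rw [le_div_iff₀ hδ]
    have : (t : ℝ) * δ < (4 / δ + 1) * δ := mul_lt_mul_of_pos_right t2 hδ
    have e : (4 / δ + 1) * δ = 4 + δ := by field_simp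
    nlinarith
  have hW0 : (0 : ℝ) < W := by exact_mod_cast hW
  have hWr : (1 : ℝ) ≤ W := by exact_mod_cast hW
  have hlogW : 0 ≤ Real.log W := Real.log_nonneg hWr
  have hWsq : (W : ℝ) ≤ Real.sqrt n := by
    apply Real.le_sqrt_of_sq_le
    have h1 : 2 * Real.log W ≤ Real.log n := by
      have h2 : 16 * ((4 : ℝ) + 1) * Real.log W ≤ 16 * ((t : ℝ) + 1) * Real.log W := by
        apply mul_le_mul_of_nonneg_right _ hlogW
        linarith
      have h3 : δ * Real.log n ≤ Real.log n := by nlinarith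
      linarith
    have h2 : Real.log ((W : ℝ) ^ 2) ≤ Real.log n := by
      rw [Real.log_pow]
      push_cast
      exact h1
    exact (Real.log_le_log_iff (by positivity) hn0).1 h2
  -- the sequence
  obtain ⟨lam, hlam⟩ : ∃ lam : ℝ, lam = (l.map (fun d : ℕ => Real.exp d - 1)).prod := ⟨_, rfl⟩
  obtain ⟨hlam1, hlam2⟩ := prod_bounds l W hld
  rw [← hlam] at hlam1 hlam2
  rw [hls] at hlam2
  obtain ⟨ψ, hψ⟩ : ∃ ψ : ℝ, ψ = (|a| * Real.exp n) ^ (-(4 * δ)) * Q ^ (-(12 * 2 ^ s / δ)) :=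
    ⟨_, rfl⟩
  have ha0 : 0 < |a| := by linarith
  have hQ0 : 0 < Q := by linarith
  have hψ0 : 0 < ψ := by
    rw [hψ]
    positivity
  have happ : ∀ k ∈ S, App Q ψ (a * Real.exp n * Real.exp k +
      (Polynomial.taylor (n : ℝ) P).eval (k : ℝ)) := by
    intro k hk
    have h := hbad k hk
    unfold Bad at h
    have e : a * Real.exp ((n + k : ℕ) : ℝ) + P.eval ((n + k : ℕ) : ℝ) =
        a * Real.exp n * Real.exp k + (Polynomial.taylor (n : ℝ) P).eval (k : ℝ) := by
      rw [Polynomial.taylor_eval]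
      push_cast
      rw [Real.exp_add, add_comm (k : ℝ) n]
      ring
    rw [e] at h
    refine app_mono h le_rfl ?_
    rw [hψ]
    apply mul_le_mul_of_nonneg_right _ (by positivity)
    apply Real.rpow_le_rpow_of_nonpos (by positivity)
    · apply mul_le_mul_of_nonneg_left _ ha0.le
      apply Real.exp_le_exp.2
      push_cast
      have : (0 : ℝ) ≤ k := Nat.cast_nonneg _
      linarith
    · linarith
  have happ2 : ∀ j ∈ T, App (Q ^ (2 ^ s)) (2 ^ s * ψ) (a * Real.exp n * lam * Real.exp j) := by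
    intro j hj
    have h := app_iter l S _ Q ψ happ j (hTS j hj)
    rw [iter_add, iter_exp, iter_poly l _ (by rw [hls, Polynomial.degree_taylor]; exact hdeg),
      add_zero, hls, ← hlam] at h
    exact h
  -- the parameter
  obtain ⟨R, hR⟩ : ∃ R : ℝ, R = (Q ^ (2 ^ s)) ^ (t + 1) * |a| := ⟨_, rfl⟩
  have hR1 : 1 ≤ R := by
    rw [hR]
    have : 1 ≤ (Q ^ (2 ^ s)) ^ (t + 1) := one_le_pow₀ (one_le_pow₀ hQ)
    nlinarith
  have hR0 : 0 < R := by linarith
  have hlogR : Real.log R = 2 ^ s * (t + 1) * Real.log Q + Real.log |a| := by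
    rw [hR, Real.log_mul (by positivity) (by positivity), ← pow_mul, Real.log_pow]
    push_cast
    ring
  have hlogR0 : 0 ≤ Real.log R := Real.log_nonneg hR1
  obtain ⟨E, hE⟩ : ∃ E : ℕ, E = ⌈Real.log R + s * W⌉₊ := ⟨_, rfl⟩
  have hE1 : Real.log R + s * W ≤ E := by rw [hE]; exact Nat.le_ceil _
  have hE2 : (E : ℝ) ≤ Real.log R + s * W + 1 := by
    rw [hE]
    exact (Nat.ceil_lt_add_one (by positivity)).le
  have hnE : (n : ℝ) ≤ ((n + E : ℕ) : ℝ) := by exact_mod_cast Nat.le_add_right n E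
  have hlnE : Real.log n ≤ Real.log ((n + E : ℕ) : ℝ) := Real.log_le_log hn0 hnE
  have hll' : 64 * Real.log (Real.log ((n + E : ℕ) : ℝ)) ≤ δ * Real.log ((n + E : ℕ) : ℝ) := by
    have h1 := Real.log_div_self_antitoneOn (show Real.log n ∈ {x : ℝ | Real.exp 1 ≤ x} from hle)
      (show Real.log ((n + E : ℕ) : ℝ) ∈ {x : ℝ | Real.exp 1 ≤ x} from hle.trans hlnE) hlnE
    have h2 : Real.log (Real.log n) / Real.log n ≤ δ / 64 := by
      rw [div_le_div_iff₀ hl0 (by norm_num)]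
      linarith
    have h3 : Real.log (Real.log ((n + E : ℕ) : ℝ)) / Real.log ((n + E : ℕ) : ℝ) ≤ δ / 64 :=
      h1.trans h2
    rw [div_le_div_iff₀ (hl0.trans_le hlnE) (by norm_num)] at h3
    linarith
  have hlW' : 16 * ((t : ℝ) + 1) * Real.log W ≤ δ * Real.log ((n + E : ℕ) : ℝ) :=
    hlW.trans (mul_le_mul_of_nonneg_left hlnE hδ.le)
  obtain ⟨m, hm1, hmA, hmB⟩ := hP (n + E) t W δ (by omega) hδ hδ1 hll' ht hW hlW'
  have hVT : (V T : ℝ) ^ (2 * m) ≤ (W : ℝ) ^ (t * (t + 1) * m) := by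
    have h := hV T W t hTW hW hTcard
    have h' : ((V T) ^ 2) ^ m ≤ (W ^ (t * (t + 1))) ^ m := Nat.pow_le_pow_left h m
    rw [← pow_mul, ← pow_mul] at h'
    exact_mod_cast h'
  have hAabs : |a * Real.exp n * lam| = |a| * Real.exp n * lam := by
    rw [abs_mul, abs_mul, abs_of_pos (Real.exp_pos _), abs_of_pos (by linarith : (0 : ℝ) < lam)]
  have hlam0 : 0 < lam := by linarith
  refine con hF T m W (Q ^ (2 ^ s)) (2 ^ s * ψ) (a * Real.exp n * lam) hne hm1 hTW ?_
    (by positivity) happ2 ?_ ?_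
  · rw [hAabs]
    positivity
  · rw [hTcard, hAabs]
    refine le_trans ?_ hmA
    have h1 : 2 * (Q ^ (2 ^ s)) ^ (t + 1) * (|a| * Real.exp n * lam) * Real.exp W ≤
        2 * Real.exp (((n + E : ℕ) : ℝ) + 2 * W) := by
      have h2 : (Q ^ (2 ^ s)) ^ (t + 1) * (|a| * Real.exp n * lam) * Real.exp W =
          R * lam * (Real.exp n * Real.exp W) := by rw [hR]; ring
      have h3 : R * lam ≤ Real.exp E := by
        calc R * lam ≤ R * Real.exp (s * W) := mul_le_mul_of_nonneg_left hlam2 hR0.le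
          _ = Real.exp (Real.log R + s * W) := by rw [Real.exp_add, Real.exp_log hR0]
          _ ≤ _ := Real.exp_le_exp.2 hE1
      have h4 : R * lam * (Real.exp n * Real.exp W) ≤ Real.exp E * (Real.exp n * Real.exp W) :=
        mul_le_mul_of_nonneg_right h3 (by positivity)
      have h5 : Real.exp E * (Real.exp n * Real.exp W) ≤ Real.exp (((n + E : ℕ) : ℝ) + 2 * W) := by
        rw [← Real.exp_add, ← Real.exp_add]
        apply Real.exp_le_exp.2
        push_cast
        linarith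
      linarith
    calc 2 * (Q ^ (2 ^ s)) ^ (t + 1) * (|a| * Real.exp n * lam) * Real.exp W *
          (V T : ℝ) ^ (2 * m) * ((m - 1).factorial : ℝ)
        ≤ 2 * Real.exp (((n + E : ℕ) : ℝ) + 2 * W) * (W : ℝ) ^ (t * (t + 1) * m) *
          ((m - 1).factorial : ℝ) := by
          apply mul_le_mul_of_nonneg_right _ (by positivity)
          exact mul_le_mul h1 hVT (by positivity) (by positivity)
      _ = _ := by ring
  · rw [hTcard, hAabs]
    obtain ⟨F, hFd⟩ : ∃ F : ℝ, F = ((m * (t + 1) - 1).factorial : ℝ) := ⟨_, rfl⟩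
    rw [← hFd] at hmB ⊢
    have h1 : 2 ^ s * ψ * Real.exp (δ * ((n + E : ℕ) : ℝ)) * Real.exp ((n + E : ℕ) : ℝ) ≤
        |a| * Real.exp n := by
      have e1 : ψ = Real.exp (-(4 * δ) * (Real.log |a| + n) + -(12 * 2 ^ s / δ) * Real.log Q) := by
        rw [hψ, Real.rpow_def_of_pos (by positivity), Real.rpow_def_of_pos hQ0,
          Real.log_mul (by positivity) (by positivity), Real.log_exp, ← Real.exp_add]
        congr 1
        ring
      have e2 : |a| * Real.exp n = Real.exp (Real.log |a| + n) := by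
        rw [Real.exp_add, Real.exp_log ha0]
      have e3 : (2 : ℝ) ^ s ≤ Real.exp s := by
        calc (2 : ℝ) ^ s ≤ (Real.exp 1) ^ s := by
              apply pow_le_pow_left₀ (by norm_num)
              have := Real.add_one_le_exp (1 : ℝ)
              linarith
          _ = Real.exp s := by rw [← Real.exp_nat_mul, mul_one]
      have hlq : 0 ≤ Real.log Q := Real.log_nonneg hQ
      have hla : 0 ≤ Real.log |a| := Real.log_nonneg ha
      calc 2 ^ s * ψ * Real.exp (δ * ((n + E : ℕ) : ℝ)) * Real.exp ((n + E : ℕ) : ℝ)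
          ≤ Real.exp s * ψ * Real.exp (δ * ((n + E : ℕ) : ℝ)) * Real.exp ((n + E : ℕ) : ℝ) := by
            gcongr
        _ = Real.exp (s + (-(4 * δ) * (Real.log |a| + n) + -(12 * 2 ^ s / δ) * Real.log Q) +
            δ * ((n + E : ℕ) : ℝ) + ((n + E : ℕ) : ℝ)) := by
            rw [e1, ← Real.exp_add, ← Real.exp_add, ← Real.exp_add]
        _ ≤ |a| * Real.exp n := by
            rw [e2]
            apply Real.exp_le_exp.2
            push_cast
            have hsz := size_lemma s n δ W hn' (by omega) hll hWsq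
            have hsW : 0 ≤ (s : ℝ) * W := by positivity
            have hE3 : (1 + δ) * (E : ℝ) ≤ (1 + δ) * (2 ^ s * (t + 1) * Real.log Q +
                Real.log |a| + s * W + 1) := by
              apply mul_le_mul_of_nonneg_left _ (by linarith)
              rw [← hlogR]
              exact hE2
            have hq1 : (1 + δ) * (2 ^ s * (t + 1) * Real.log Q) ≤
                12 * 2 ^ s / δ * Real.log Q := by
              have h3 : (1 + δ) * (2 ^ s * (t + 1)) ≤ 2 * (2 ^ s * (6 / δ)) := by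
                apply mul_le_mul (by linarith) _ (by positivity) (by norm_num)
                exact mul_le_mul_of_nonneg_left t4 (by positivity)
              have h4 : 2 * (2 ^ s * (6 / δ)) = 12 * 2 ^ s / δ := by ring
              rw [h4] at h3
              have h5 := mul_le_mul_of_nonneg_right h3 hlq
              linarith
            have hq2 : (1 + δ) * (s * W) ≤ 2 * (s * W) :=
              mul_le_mul_of_nonneg_right (by linarith) hsW
            have hq3 : 0 ≤ δ * Real.log |a| := by positivity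
            nlinarith
    have hFpos : 0 < F := by
      rw [hFd]
      exact_mod_cast Nat.factorial_pos _
    have h2 : 3 * ((t + 1 : ℕ) : ℝ) * 2 ^ (m * (t + 1)) * F * (2 ^ s * ψ) =
        (6 * ((t : ℝ) + 1) * 2 ^ (m * (t + 1)) * F * Real.exp (-(δ * ((n + E : ℕ) : ℝ)))) *
          (2 ^ s * ψ * Real.exp (δ * ((n + E : ℕ) : ℝ)) / 2) := by
      have e : Real.exp (-(δ * ((n + E : ℕ) : ℝ))) * Real.exp (δ * ((n + E : ℕ) : ℝ)) = 1 := by
        rw [← Real.exp_add, neg_add_cancel, Real.exp_zero]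
      calc 3 * ((t + 1 : ℕ) : ℝ) * 2 ^ (m * (t + 1)) * F * (2 ^ s * ψ)
          = 3 * ((t + 1 : ℕ) : ℝ) * 2 ^ (m * (t + 1)) * F * (2 ^ s * ψ) *
            (Real.exp (-(δ * ((n + E : ℕ) : ℝ))) * Real.exp (δ * ((n + E : ℕ) : ℝ))) := by
              rw [e, mul_one]
        _ = _ := by push_cast; ring
    rw [h2]
    have h3 : (6 * ((t : ℝ) + 1) * 2 ^ (m * (t + 1)) * F * Real.exp (-(δ * ((n + E : ℕ) : ℝ)))) *
          (2 ^ s * ψ * Real.exp (δ * ((n + E : ℕ) : ℝ)) / 2) <
        Real.exp ((n + E : ℕ) : ℝ) * (2 ^ s * ψ * Real.exp (δ * ((n + E : ℕ) : ℝ)) / 2) :=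
      mul_lt_mul_of_pos_right hmB (by positivity)
    have h4 : |a| * Real.exp n ≤ |a| * Real.exp n * lam := le_mul_of_one_le_right (by positivity) hlam1
    have h5 : 0 < |a| * Real.exp n := by positivity
    nlinarith

end Pool.Agent.TH536.EW
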